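import Mathlib

set_option autoImplicit false
open Finset PowerSeries

namespace Pool.Agent.Results.MP_773328_co.Parity

/-- `F(z) = ∑_k (-1)^k z^(2k+1) / (k! (k+1)! (2k+1))`. -/
noncomputable def F : ℚ⟦X⟧ := PowerSeries.mk fun n =>
  if Odd n then (-1) ^ (n / 2) / (((n / 2).factorial : ℚ) * ((n / 2 + 1).factorial : ℚ) * n) else 0

/-- `a n = n! [z^n] (-log (1 - F))`, where `-log (1 - F) = ∑_{k ≥ 1} F^k / k`; since `F` has no
constant term only `k ≤ n` contributes. -/
noncomputable def a (n : ℕ) : ℚ :=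
  (n.factorial : ℚ) * ∑ k ∈ Icc 1 n, PowerSeries.coeff n (F ^ k) / k

def f (n : ℕ) : ℤ := if Odd n then (-1) ^ (n / 2) * (catalan (n / 2) : ℤ) else 0

lemma f_eq (n : ℕ) : (f n : ℚ) = n.factorial * coeff n F := by
  unfold f F
  rw [coeff_mk]
  split_ifs with h
  · obtain ⟨k, rfl⟩ := h
    have e : (2 * k + 1) / 2 = k := by omega
    rw [e]
    have h1 : ((k + 1 : ℕ) : ℚ) * catalan k = k.centralBinom := by
      exact_mod_cast succ_mul_catalan_eq_centralBinom k
    have h2 : (k.centralBinom : ℚ) * k.factorial * k.factorial = (2 * k).factorial := by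
      have := Nat.choose_mul_factorial_mul_factorial (show k ≤ 2 * k by omega)
      rw [show 2 * k - k = k by omega] at this
      exact_mod_cast this
    have h3 : (k.factorial : ℚ) ≠ 0 := by positivity
    rw [Nat.factorial_succ, Nat.factorial_succ]
    push_cast at h1 ⊢
    rw [← h2, ← h1]
    field_simp
  · simp

lemma coeff_pow_zero (k n : ℕ) (h : n < k) : coeff n (F ^ k) = 0 := by
  have h1 : (X : ℚ⟦X⟧) ∣ F := X_dvd_iff.mpr (by simp [F, ← coeff_zero_eq_constantCoeff_apply])
  exact X_pow_dvd_iff.mp (pow_dvd_pow_of_dvd h1 k) n h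

noncomputable def A (N : ℕ) : ℚ⟦X⟧ := ∑ k ∈ range N, C ((k + 1 : ℚ)⁻¹) * F ^ (k + 1)

lemma a_eq (n N : ℕ) (h : n ≤ N) : a n = n.factorial * coeff n (A N) := by
  unfold a A
  congr 1
  rw [map_sum, ← sum_subset (range_subset_range.mpr h), ← Finset.Ico_add_one_right_eq_Icc,
    sum_Ico_eq_sum_range]
  · refine sum_congr rfl fun k _ => ?_
    rw [coeff_C_mul, add_comm 1 k]; push_cast; ring
  · intro k _ hk
    rw [coeff_C_mul, coeff_pow_zero _ _ (by simpa using hk), mul_zero]

lemma ode (N : ℕ) : d⁄dX ℚ (A N) = d⁄dX ℚ F + F * d⁄dX ℚ (A N) - F ^ N * d⁄dX ℚ F := by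
  have h : d⁄dX ℚ (A N) = (∑ k ∈ range N, F ^ k) * d⁄dX ℚ F := by
    unfold A
    rw [map_sum, sum_mul]
    refine sum_congr rfl fun k _ => ?_
    rw [← smul_eq_C_mul, Derivation.map_smul, Derivation.leibniz_pow, ← Nat.cast_smul_eq_nsmul ℚ,
      smul_smul]
    push_cast
    rw [inv_mul_cancel₀ (by positivity), one_smul]
    simp
  rw [h]
  have := mul_neg_geom_sum F N
  linear_combination (d⁄dX ℚ F) * this

lemma rec_a (n : ℕ) : a (n + 1) = f (n + 1) +
    ∑ j ∈ range (n + 1), (n.choose j : ℚ) * f j * a (n + 1 - j) := by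
  have h := congrArg (coeff n) (ode (n + 1))
  rw [map_sub, map_add, coeff_mul, coeff_mul, sum_eq_zero (s := antidiagonal n)
    (f := fun p => coeff p.1 (F ^ (n + 1)) * coeff p.2 (d⁄dX ℚ F)) (fun p hp => by
      rw [coeff_pow_zero _ _ (by have := mem_antidiagonal.mp hp; omega), zero_mul]), sub_zero,
    Finset.Nat.sum_antidiagonal_eq_sum_range_succ
      (fun i j => coeff i F * coeff j (d⁄dX ℚ (A (n + 1))))] at h
  simp only [coeff_derivative] at h
  rw [a_eq (n + 1) (n + 1) le_rfl, f_eq, Nat.factorial_succ]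
  have h2 : ∑ j ∈ range (n + 1), (n.choose j : ℚ) * f j * a (n + 1 - j) = n.factorial *
      ∑ j ∈ range (n + 1), coeff j F * (coeff (n - j + 1) (A (n + 1)) * ((n - j : ℕ) + 1)) := by
    rw [mul_sum]
    refine sum_congr rfl fun j hj => ?_
    have hj' : j ≤ n := by simpa [Nat.lt_succ_iff] using hj
    rw [f_eq, show n + 1 - j = n - j + 1 by omega, a_eq _ (n + 1) (by omega), Nat.factorial_succ,
      ← Nat.choose_mul_factorial_mul_factorial hj']
    push_cast; ring
  rw [h2]
  push_cast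
  linear_combination (n.factorial : ℚ) * h

lemma choose_even {n j : ℕ} (hn : Even n) (hj : Odd j) : ((n.choose j : ℕ) : ZMod 2) = 0 := by
  obtain ⟨k, rfl⟩ := hj
  rcases n with _ | n
  · rw [Nat.choose_eq_zero_of_lt (by omega), Nat.cast_zero]
  · have h := Nat.add_one_mul_choose_eq n (2 * k)
    have h1 : Even ((n + 1).choose (2 * k + 1) * (2 * k + 1)) := h ▸ hn.mul_right _
    rw [Nat.even_mul] at h1
    exact (ZMod.natCast_eq_zero_iff_even).mpr (h1.resolve_right (by simp))

lemma cat_par (k : ℕ) : ((catalan k : ℕ) : ZMod 2) = 1 ↔ ∃ i, k + 1 = 2 ^ i := by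
  induction k using Nat.strong_induction_on with
  | _ k ih =>
    rcases k with _ | k
    · simp; exact ⟨0, rfl⟩
    have h2 : ∀ x : ZMod 2, x + x = 0 := by decide
    have h3 : ∀ x : ZMod 2, x * x = x := by decide
    have h1 : ((catalan (k + 1) : ℕ) : ZMod 2) = ∑ p ∈ (antidiagonal k).filter (fun p => p.1 = p.2),
        (catalan p.1 : ZMod 2) * catalan p.2 := by
      rw [catalan_succ', Nat.cast_sum, ← sum_filter_add_sum_filter_not _ (fun p => p.1 = p.2)]
      push_cast
      rw [add_eq_left]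
      refine sum_involution (fun p _ => p.swap) (fun p _ => by rw [mul_comm]; exact h2 _)
        (fun p hp _ h => (mem_filter.mp hp).2 (congrArg Prod.snd h)) (fun p hp => ?_)
        (fun p _ => rfl)
      simp only [mem_filter, HasAntidiagonal.mem_antidiagonal, Prod.fst_swap, Prod.snd_swap] at *
      omega
    rw [h1]
    rcases Nat.even_or_odd' k with ⟨j, rfl | rfl⟩
    · have : (antidiagonal (2 * j)).filter (fun p => p.1 = p.2) = {(j, j)} := by
        ext ⟨x, y⟩; simp only [mem_filter, HasAntidiagonal.mem_antidiagonal, mem_singleton, Prod.mk.injEq]; omega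
      rw [this, sum_singleton, h3, ih j (by omega)]
      constructor
      · rintro ⟨i, hi⟩; exact ⟨i + 1, by rw [pow_succ]; omega⟩
      · rintro ⟨i, hi⟩
        rcases i with _ | i
        · omega
        · exact ⟨i, by rw [pow_succ] at hi; omega⟩
    · have : (antidiagonal (2 * j + 1)).filter (fun p => p.1 = p.2) = ∅ := by
        ext ⟨x, y⟩; simp only [mem_filter, HasAntidiagonal.mem_antidiagonal, notMem_empty, iff_false]; omega
      rw [this, sum_empty]
      refine ⟨fun h => absurd h (by decide), ?_⟩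
      rintro ⟨i, hi⟩
      rcases i with _ | i
      · omega
      · rw [pow_succ] at hi; omega

lemma key (n : ℕ) : ∃ z : ℤ, (z : ℚ) = a (n + 1) ∧ (n ≠ 1 → (z : ZMod 2) = f (n + 1)) := by
  induction n using Nat.strong_induction_on with
  | _ n ih =>
    have ih' : ∀ j, ∃ z : ℤ, 0 < j → j ≤ n →
        (z : ℚ) = a (n + 1 - j) ∧ (n - j ≠ 1 → (z : ZMod 2) = f (n + 1 - j)) := fun j => by
      by_cases h : 0 < j ∧ j ≤ n
      · obtain ⟨z, hz⟩ := ih (n - j) (by omega)
        exact ⟨z, fun _ _ => by rwa [show n + 1 - j = n - j + 1 by omega]⟩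
      · exact ⟨0, fun h1 h2 => absurd ⟨h1, h2⟩ h⟩
    choose z hz using ih'
    have f0 : ∀ j, Even j → f j = 0 := fun j hj => if_neg (Nat.not_odd_iff_even.mpr hj)
    refine ⟨f (n + 1) + ∑ j ∈ range (n + 1), (n.choose j : ℤ) * f j * z j, ?_, fun hn => ?_⟩
    · rw [rec_a]; push_cast
      congr 1
      refine sum_congr rfl fun j hj => ?_
      rcases Nat.eq_zero_or_pos j with rfl | h0
      · simp [f0 0 (by simp)]
      · rw [(hz j h0 (by simpa [Nat.lt_succ_iff] using hj)).1]
    push_cast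
    rw [add_eq_left]
    rcases Nat.even_or_odd n with he | ho
    · refine sum_eq_zero fun j _ => ?_
      rcases Nat.even_or_odd j with h | h
      · simp [f0 j h]
      · rw [choose_even he h]; simp
    rw [← sum_filter_add_sum_filter_not _ Odd, sum_eq_zero (s := filter (fun j => ¬ Odd j) _)
      (fun j hj => by simp [f0 j (Nat.not_odd_iff_even.mp (mem_filter.mp hj).2)]), add_zero]
    have hm : ∀ j ∈ (range (n + 1)).filter Odd, 0 < j ∧ j ≤ n ∧ j % 2 = 1 := fun j hj => by
      obtain ⟨h1, h2⟩ := mem_filter.mp hj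
      have := Nat.odd_iff.mp h2
      have := mem_range.mp h1
      omega
    have hn2 := Nat.odd_iff.mp ho
    rw [sum_congr rfl (g := fun j => (n.choose j : ZMod 2) * f j * f (n + 1 - j)) fun j hj => by
      obtain ⟨h1, h2, h3⟩ := hm j hj
      rw [(hz j h1 h2).2 (by omega)]]
    refine sum_involution (fun j _ => n + 1 - j) (fun j hj => ?_) (fun j hj h0 h => h0 ?_)
      (fun j hj => ?_) (fun j hj => ?_)
    · obtain ⟨h1, h2, h3⟩ := hm j hj
      obtain ⟨i, rfl⟩ : ∃ i, j = i + 1 := ⟨j - 1, by omega⟩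
      have h4 := choose_even (n := n + 1) (j := i + 1) ho.add_one (Nat.odd_iff.mpr h3)
      rw [Nat.choose_succ_succ] at h4
      rw [show n + 1 - (n + 1 - (i + 1)) = i + 1 by omega, show n + 1 - (i + 1) = n - i by omega,
        Nat.choose_symm (by omega)]
      push_cast at h4
      linear_combination (f (i + 1) : ZMod 2) * (f (n - i) : ZMod 2) * h4
    · obtain ⟨h1, h2, h3⟩ := hm j hj
      obtain ⟨i, rfl⟩ : ∃ i, j = i + 1 := ⟨j - 1, by omega⟩
      obtain rfl : n = 2 * i + 1 := by omega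
      have h4 := Nat.add_one_mul_choose_eq (2 * i) i
      have h5 : Even ((2 * i + 1).choose (i + 1) * (i + 1)) := by
        rw [← h4]
        exact (even_iff_two_dvd.mpr (Nat.two_dvd_centralBinom_of_one_le (n := i)
          (by omega))).mul_left _
      rw [Nat.even_mul] at h5
      rw [(ZMod.natCast_eq_zero_iff_even).mpr (h5.resolve_right (by rw [Nat.even_iff]; omega))]
      simp
    · obtain ⟨h1, h2, h3⟩ := hm j hj
      exact mem_filter.mpr ⟨mem_range.mpr (by omega), Nat.odd_iff.mpr (by omega)⟩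
    · obtain ⟨h1, h2, h3⟩ := hm j hj
      omega

theorem result (n : ℕ) (hn : 3 ≤ n) :
    ∃ z : ℤ, (z : ℚ) = a n ∧ (Odd z ↔ ∃ i : ℕ, n + 1 = 2 ^ i) := by
  obtain ⟨m, rfl⟩ : ∃ m, n = m + 1 := ⟨n - 1, by omega⟩
  obtain ⟨z, h1, h2⟩ := key m
  refine ⟨z, h1, ?_⟩
  rw [← ZMod.intCast_eq_one_iff_odd, h2 (by omega)]
  unfold f
  split_ifs with h
  · obtain ⟨k, hk⟩ := h
    have e : (m + 1) / 2 = k := by omega
    have e2 : (-1 : ZMod 2) = 1 := by decide
    push_cast
    rw [e, e2, one_pow, one_mul, cat_par]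
    constructor
    · rintro ⟨i, hi⟩; exact ⟨i + 1, by rw [pow_succ]; omega⟩
    · rintro ⟨i, hi⟩
      rcases i with _ | i
      · omega
      · exact ⟨i, by rw [pow_succ] at hi; omega⟩
  · refine ⟨fun h => absurd h (by simp), ?_⟩
    rintro ⟨i, hi⟩
    rw [Nat.odd_iff] at h
    rcases i with _ | i
    · omega
    · rw [pow_succ] at hi; omega

end Pool.Agent.Results.MP_773328_co.Parity
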